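import Pool.Agent.Helper64.CT.Stmts

/-! CT module CHN: chain of intervals covering `(L, R)`. -/

set_option autoImplicit false

namespace Pool.Agent.Helper64.CT

theorem chn_first {V : Type} [Finite V] (F : Set V) (l r : V → ℝ) (L R : ℝ) (hLR : L < R)
    (hne : ∀ v ∈ F, l v ≠ L ∧ r v ≠ L ∧ l v ≠ R ∧ r v ≠ R)
    (hc : ∀ t, L < t → t < R → (∀ v ∈ F, t ≠ l v ∧ t ≠ r v) → ∃ v ∈ F, l v < t ∧ t < r v) :
    ∃ v ∈ F, l v < L ∧ L < r v ∧ ∀ u ∈ F, l u < L → L < r u → r u ≤ r v := by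
  obtain ⟨v, hv, h1, h2⟩ : ∃ v ∈ F, l v < L ∧ L < r v := by
    have hE : ((l '' F ∪ r '' F ∪ {R}) ∩ Set.Ioi L).Finite :=
      (((Set.toFinite F).image l).union ((Set.toFinite F).image r)
        |>.union (Set.finite_singleton R)).inter_of_left _
    obtain ⟨e, he, hmin⟩ := Set.exists_min_image _ id hE ⟨R, Or.inr rfl, hLR⟩
    have heL : L < e := he.2
    have heR : e ≤ R := hmin R ⟨Or.inr rfl, hLR⟩
    have hl : ∀ v ∈ F, L < l v → e ≤ l v := fun v hv h =>
      hmin (l v) ⟨Or.inl (Or.inl ⟨v, hv, rfl⟩), h⟩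
    have hr : ∀ v ∈ F, L < r v → e ≤ r v := fun v hv h =>
      hmin (r v) ⟨Or.inl (Or.inr ⟨v, hv, rfl⟩), h⟩
    obtain ⟨v, hv, h1, h2⟩ := hc ((L + e) / 2) (by linarith) (by linarith) (by
      intro v hv
      constructor
      · intro h
        have := hl v hv (by linarith)
        linarith
      · intro h
        have := hr v hv (by linarith)
        linarith)
    refine ⟨v, hv, ?_, by linarith⟩
    rcases lt_trichotomy (l v) L with h | h | h
    · exact h
    · exact absurd h (hne v hv).1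
    · have := hl v hv h
      linarith
  obtain ⟨w, hw, hmax⟩ := Set.exists_max_image {v | v ∈ F ∧ l v < L ∧ L < r v} r
    (Set.toFinite _) ⟨v, hv, h1, h2⟩
  exact ⟨w, hw.1, hw.2.1, hw.2.2, fun u hu h3 h4 => hmax u ⟨hu, h3, h4⟩⟩

theorem chn_aux (V : Type) [Finite V] (l r : V → ℝ) (R : ℝ) : ∀ (n : ℕ) (F : Set V) (L : ℝ),
    F.ncard = n → L < R →
  (∀ v ∈ F, l v < r v) → (∀ u ∈ F, ∀ v ∈ F, l u = l v → u = v) →
  (∀ u ∈ F, ∀ v ∈ F, r u = r v → u = v) → (∀ u ∈ F, ∀ v ∈ F, l u ≠ r v) →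
  (∀ v ∈ F, l v ≠ L ∧ r v ≠ L ∧ l v ≠ R ∧ r v ≠ R) →
  (∀ t, L < t → t < R → (∀ v ∈ F, t ≠ l v ∧ t ≠ r v) → ∃ v ∈ F, l v < t ∧ t < r v) →
  ∃ (m : ℕ) (y : ℕ → V), (∀ i ≤ m, y i ∈ F) ∧ (l (y 0) < L ∧ L < r (y 0)) ∧
    (∀ i < m, l (y (i + 1)) < r (y i) ∧ r (y i) < r (y (i + 1)) ∧ r (y i) < R ∧
      L < l (y (i + 1))) ∧
    (∀ i, i + 2 ≤ m → r (y i) < l (y (i + 2))) ∧ (l (y m) < R ∧ R < r (y m)) := by
  intro n
  induction n with
  | zero =>
    intro F L hn hLR _ _ _ _ hne hc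
    obtain ⟨v, hv, _⟩ := chn_first F l r L R hLR hne hc
    rw [Set.ncard_eq_zero (Set.toFinite F)] at hn
    rw [hn] at hv
    exact absurd hv (Set.notMem_empty v)
  | succ n ih =>
    intro F L hn hLR hlt hil hir hlr hne hc
    obtain ⟨v, hv, h1, h2, hmax⟩ := chn_first F l r L R hLR hne hc
    by_cases hR : R < r v
    · exact ⟨0, fun _ => v, fun _ _ => hv, ⟨h1, h2⟩, fun i hi => absurd hi (Nat.not_lt_zero i),
        fun i hi => by omega, ⟨h1.trans hLR, hR⟩⟩
    have hR' : r v < R := lt_of_le_of_ne (not_lt.mp hR) (hne v hv).2.2.2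
    have hsub : F \ {v} ⊆ F := Set.diff_subset
    obtain ⟨m, y, k1, k2, k3, k4, k5⟩ := ih (F \ {v}) (r v)
      (by rw [Set.ncard_diff_singleton_of_mem hv, hn]; rfl) hR'
      (fun u hu => hlt u (hsub hu)) (fun u hu w hw => hil u (hsub hu) w (hsub hw))
      (fun u hu w hw => hir u (hsub hu) w (hsub hw)) (fun u hu w hw => hlr u (hsub hu) w (hsub hw))
      (fun u hu => ⟨hlr u (hsub hu) v hv, fun h => hu.2 (hir u (hsub hu) v hv h),
        (hne u (hsub hu)).2.2.1, (hne u (hsub hu)).2.2.2⟩)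
      (by
        intro t ht1 ht2 ht3
        obtain ⟨u, hu, hu1, hu2⟩ := hc t (h2.trans ht1) ht2 (by
          intro u hu
          by_cases huv : u = v
          · subst huv
            have := hlt u hu
            exact ⟨fun h => by linarith, fun h => by linarith⟩
          · exact ht3 u ⟨hu, huv⟩)
        refine ⟨u, ⟨hu, ?_⟩, hu1, hu2⟩
        rintro rfl
        linarith)
    refine ⟨m + 1, fun i => Nat.casesOn i v (fun j => y j), ?_, ⟨h1, h2⟩, ?_, ?_, k5⟩
    · intro i hi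
      cases i with
      | zero => exact hv
      | succ j => exact hsub (k1 j (by omega))
    · intro i hi
      cases i with
      | zero =>
        refine ⟨k2.1, k2.2, hR', ?_⟩
        have h0 := k1 0 (Nat.zero_le m)
        rcases lt_trichotomy L (l (y 0)) with h | h | h
        · exact h
        · exact absurd h.symm (hne _ (hsub h0)).1
        · have h3 := hmax (y 0) (hsub h0) h (h2.trans k2.2)
          have h4 := k2.2
          linarith
      | succ j =>
        obtain ⟨a1, a2, a3, a4⟩ := k3 j (by omega)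
        exact ⟨a1, a2, a3, h2.trans a4⟩
    · intro i hi
      cases i with
      | zero =>
        exact (k3 0 (by omega)).2.2.2
      | succ j => exact k4 j (by omega)

theorem st_CHN : ST_CHN := by
  intro V _ F l r L R h1 h2 h3 h4 h5 h6 h7
  exact chn_aux V l r R F.ncard F L rfl h1 h2 h3 h4 h5 h6 h7

end Pool.Agent.Helper64.CT
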