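import Pool.Agent.Helper64.CT.Stmts

/-! CT module CYZ: the cycle given by the position lemma leads to a contradiction. -/

set_option autoImplicit false

namespace Pool.Agent.Helper64.CT

open Pool.Agent.Helper64.HG (Ovl Model Circ IC HellyCircle)

theorem cyz_adj {V : Type} {G : SimpleGraph V} {L : List V} (h : IC G L) (hn : 0 < L.length)
    (i : ℕ) :
    G.Adj (L[i % L.length]'(Nat.mod_lt _ hn)) (L[(i + 1) % L.length]'(Nat.mod_lt _ hn)) := by
  obtain ⟨h3, hnd, hadj⟩ := h
  have h1 : i % L.length < L.length := Nat.mod_lt _ hn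
  by_cases hc : i % L.length + 1 < L.length
  · have h2 : (i + 1) % L.length = i % L.length + 1 := by
      rw [Nat.add_mod, Nat.mod_eq_of_lt (by omega : 1 < L.length), Nat.mod_eq_of_lt hc]
    simp only [h2]
    exact (hadj _ _ h1 hc (by omega)).2 (Or.inl rfl)
  · have h2 : (i + 1) % L.length = 0 := by
      have h4 : i % L.length + 1 = L.length := by omega
      rw [Nat.add_mod, Nat.mod_eq_of_lt (by omega : 1 < L.length), h4, Nat.mod_self]
    simp only [h2]
    exact ((hadj 0 _ hn h1 (by omega)).2 (Or.inr ⟨rfl, by omega⟩)).symm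

/-- a function `f` on `ℕ` running around the cycle and starting at a given vertex -/
theorem cyz_walk {V : Type} {G : SimpleGraph V} {L : List V} (h : IC G L) (h4 : 4 ≤ L.length)
    {y : V} (hy : y ∈ L) :
    ∃ f : ℕ → V, f 0 = y ∧ f L.length = y ∧ (∀ i, f i ∈ L) ∧ (∀ i, G.Adj (f i) (f (i + 1))) ∧
      (∀ i, 0 < i → i < L.length → f i ≠ y) ∧ f 1 ≠ f (L.length - 1) ∧
      ∀ w ∈ L, ∃ i, i < L.length ∧ f i = w := by
  obtain ⟨k, hk, hky⟩ := List.getElem_of_mem hy
  have hn : 0 < L.length := by omega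
  have hinj : ∀ i j : ℕ, L[(k + i) % L.length]'(Nat.mod_lt _ hn) =
      L[(k + j) % L.length]'(Nat.mod_lt _ hn) → (k + i) % L.length = (k + j) % L.length :=
    fun i j hij => (h.2.1.getElem_inj_iff).1 hij
  have hmod : ∀ i j : ℕ, i < L.length → j < L.length →
      (k + i) % L.length = (k + j) % L.length → i = j := by
    intro i j hi hj hij
    have h5 : i ≡ j [MOD L.length] := Nat.ModEq.add_left_cancel' k hij
    exact Nat.ModEq.eq_of_lt_of_lt h5 hi hj
  have h0 : L[(k + 0) % L.length]'(Nat.mod_lt _ hn) = y := by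
    simp only [Nat.add_zero, Nat.mod_eq_of_lt hk, hky]
  refine ⟨fun i => L[(k + i) % L.length]'(Nat.mod_lt _ hn), h0, ?_, ?_, ?_, ?_, ?_, ?_⟩
  · simp only [Nat.add_mod_right, Nat.mod_eq_of_lt hk, hky]
  · intro i
    exact List.getElem_mem _
  · intro i
    have := cyz_adj h hn (k + i)
    exact this
  · intro i hi hi' he
    have := hmod i 0 hi' hn (hinj i 0 (he.trans h0.symm))
    omega
  · intro he
    have := hmod 1 (L.length - 1) (by omega) (by omega) (hinj 1 (L.length - 1) he)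
    omega
  · intro w hw
    obtain ⟨j, hj, hjw⟩ := List.getElem_of_mem hw
    refine ⟨(j + (L.length - k)) % L.length, Nat.mod_lt _ hn, ?_⟩
    have h6 : (k + (j + (L.length - k)) % L.length) % L.length = j := by
      rw [Nat.add_mod_mod]
      have : k + (j + (L.length - k)) = j + L.length := by omega
      rw [this, Nat.add_mod_right, Nat.mod_eq_of_lt hj]
    simp only [h6, hjw]

theorem cyz_bool {a b c : Bool} (h : a = c ↔ b = c) : a = b := by
  cases a <;> cases b <;> cases c <;> simp_all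

theorem st_CYZ : ST_CYZ := by
  intro V G s T z l r ε τ L htf hsns hzT hM hR ⟨p, hpT, hzp⟩ hfar hpq hIC h4 hLT hτ ht
  have hne : ∀ y ∈ T, y ≠ z := fun y hy e => hzT (e ▸ hy)
  -- the common contradiction
  have key : ∀ n y y' : V, G.Adj n z → G.Adj n y → G.Adj n y' → y ∈ L → y' ∈ L → y ≠ y' →
      ¬ G.Adj z y → ¬ G.Adj z y' → s z y = s z y' → False := by
    intro n y y' hnz hny hny' hy hy' hyy' hzy hzy' hs
    have hnadj : ¬ G.Adj y y' := htf y n y' hny.symm hny'
    have h1 : y' ∈ Far G y := ⟨hyy'.symm, hnadj⟩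
    have h2 : y ∈ Far G y' := ⟨hyy', fun h => hnadj h.symm⟩
    have e1 : s y z = s y y' := by
      have a1 := hfar y (hLT y hy) ⟨hne y (hLT y hy), hzy⟩
      have a2 := hτ y hy y' hy' h1
      have a3 := hR y (hLT y hy) y' (hLT y' hy') h1
      exact cyz_bool (a1.symm.trans (a2.trans a3))
    have e2 : s y' z = s y' y := by
      have a1 := hfar y' (hLT y' hy') ⟨hne y' (hLT y' hy'), hzy'⟩
      have a2 := hτ y' hy' y hy h2
      have a3 := hR y' (hLT y' hy') y (hLT y hy) h2
      exact cyz_bool (a1.symm.trans (a2.trans a3))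
    have h3 := hsns.2 n z y y' hnz hny hny' (hne y (hLT y hy)).symm (hne y' (hLT y' hy')).symm hyy'
    rcases h3 with ⟨h3, _⟩ | ⟨_, h3, _⟩ | ⟨_, _, h3⟩
    · exact h3 e2
    · exact h3 hs
    · exact h3 e1
  by_cases hex : ∃ y1 ∈ L, G.Adj z y1
  · obtain ⟨y1, hy1, hzy1⟩ := hex
    by_cases hex2 : ∃ y2 ∈ L, G.Adj z y2 ∧ y2 ≠ y1
    · obtain ⟨y2, hy2, hzy2, hne2⟩ := hex2
      have hnadj : ¬ G.Adj y1 y2 := htf y1 z y2 hzy1.symm hzy2
      exact hpq y1 (hLT y1 hy1) y2 (hLT y2 hy2) hzy1 hzy2 hne2.symm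
        ⟨hτ y1 hy1 y2 hy2 ⟨hne2, hnadj⟩, hτ y2 hy2 y1 hy1 ⟨hne2.symm, fun h => hnadj h.symm⟩⟩
    · have hno : ∀ y ∈ L, y ≠ y1 → ¬ G.Adj z y := fun y hy hyne h => hex2 ⟨y, hy, h, hyne⟩
      obtain ⟨f, f0, fn, fL, fadj, fne, f1, _⟩ := cyz_walk hIC h4 hy1
      have hconst : ∀ i, i + 1 < L.length → s z (f 1) = s z (f (i + 1)) := by
        intro i
        induction i with
        | zero => intro _; rfl
        | succ i ih =>
          intro hi
          rw [ih (by omega)]
          exact hsns.1 z (f (i + 1)) (f (i + 1 + 1))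
            ⟨hne _ (hLT _ (fL _)), hno _ (fL _) (fne _ (by omega) (by omega))⟩
            ⟨hne _ (hLT _ (fL _)), hno _ (fL _) (fne _ (by omega) (by omega))⟩ (fadj _)
      have e1 : G.Adj y1 (f 1) := by
        have := fadj 0
        rwa [f0] at this
      have e2 : G.Adj y1 (f (L.length - 1)) := by
        have := fadj (L.length - 1)
        rw [Nat.sub_add_cancel (by omega : 1 ≤ L.length), fn] at this
        exact this.symm
      have e3 : s z (f 1) = s z (f (L.length - 1)) := by
        have := hconst (L.length - 2) (by omega)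
        rwa [show L.length - 2 + 1 = L.length - 1 by omega] at this
      exact key y1 (f 1) (f (L.length - 1)) hzy1.symm e1 e2 (fL _) (fL _) f1
        (hno _ (fL _) (fne _ (by omega) (by omega))) (hno _ (fL _) (fne _ (by omega) (by omega))) e3
  · have hno : ∀ y ∈ L, ¬ G.Adj z y := fun y hy h => hex ⟨y, hy, h⟩
    have hpL : ∀ y ∈ L, p ≠ y := fun y hy e => hno y hy (e ▸ hzp)
    have hlne : ∀ y ∈ L, l p ≠ l y ∧ l p ≠ r y := fun y hy =>
      ⟨fun e => hpL y hy (hM.injl p hpT y (hLT y hy) e), hM.ne p hpT y (hLT y hy)⟩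
    have hrne : ∀ y ∈ L, r p ≠ l y ∧ r p ≠ r y := fun y hy =>
      ⟨fun e => hM.ne y (hLT y hy) p hpT e.symm, fun e => hpL y hy (hM.injr p hpT y (hLT y hy) e)⟩
    obtain ⟨y, hy, h1⟩ := ht (l p) hlne
    obtain ⟨y', hy', h2⟩ := ht (r p) hrne
    have hins : ∀ w ∈ L, ¬ G.Adj w p → (τ w ↔ Ins l r w p) := by
      intro w hw hwp
      have b1 : p ∈ Far G w := ⟨hpL w hw, hwp⟩
      have b2 : z ∈ Far G w := ⟨(hne w (hLT w hw)).symm, fun h => hno w hw h.symm⟩
      have b3 : s w z = s w p := hsns.1 w z p b2 b1 hzp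
      have b4 := hfar w (hLT w hw) ⟨hne w (hLT w hw), hno w hw⟩
      have b5 := hR w (hLT w hw) p hpT b1
      rw [b4, b5, b3]
    have hpp := hM.lt p hpT
    have hadj1 : G.Adj y p := by
      by_contra hyp
      have b1 := hins y hy hyp
      apply h1
      rw [b1]
      have b2 := hM.adj y (hLT y hy) p hpT
      have b3 : ¬ Ovl l r y p := fun h => hyp (b2.2 h)
      constructor
      · rintro ⟨c1, c2⟩
        refine ⟨c1, ?_⟩
        rcases lt_trichotomy (r p) (r y) with h | h | h
        · exact h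
        · exact absurd h (hrne y hy).2
        · exact absurd (Or.inl ⟨c1, c2, h⟩) b3
      · rintro ⟨c1, c2⟩
        exact ⟨c1, hpp.trans c2⟩
    have hadj2 : G.Adj y' p := by
      by_contra hyp
      have b1 := hins y' hy' hyp
      apply h2
      rw [b1]
      have b2 := hM.adj y' (hLT y' hy') p hpT
      have b3 : ¬ Ovl l r y' p := fun h => hyp (b2.2 h)
      constructor
      · rintro ⟨c1, c2⟩
        refine ⟨?_, c2⟩
        rcases lt_trichotomy (l y') (l p) with h | h | h
        · exact h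
        · exact absurd h.symm (hlne y' hy').1
        · exact absurd (Or.inr ⟨h, c1, c2⟩) b3
      · rintro ⟨c1, c2⟩
        exact ⟨c1.trans hpp, c2⟩
    have hyy' : y ≠ y' := by
      rintro rfl
      have b2 := (hM.adj y (hLT y hy) p hpT).1 hadj1
      have b3 : (l y < l p ∧ l p < r y) ↔ (l y < r p ∧ r p < r y) := by tauto
      rcases b2 with ⟨c1, c2, c3⟩ | ⟨c1, c2, c3⟩
      · have := (b3.1 ⟨c1, c2⟩).2
        linarith
      · have := (b3.2 ⟨c2, c3⟩).1
        linarith
    obtain ⟨f, f0, fn, fL, fadj, fne, f1, fsurj⟩ := cyz_walk hIC h4 hy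
    have hconst : ∀ i, s z (f 0) = s z (f i) := by
      intro i
      induction i with
      | zero => rfl
      | succ i ih =>
        rw [ih]
        exact hsns.1 z (f i) (f (i + 1)) ⟨hne _ (hLT _ (fL _)), hno _ (fL _)⟩
          ⟨hne _ (hLT _ (fL _)), hno _ (fL _)⟩ (fadj _)
    obtain ⟨i, _, hi⟩ := fsurj y' hy'
    have e3 : s z y = s z y' := by
      have := hconst i
      rwa [f0, hi] at this
    exact key p y y' hzp.symm hadj1.symm hadj2.symm hy hy' hyy' (hno y hy) (hno y' hy') e3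

end Pool.Agent.Helper64.CT
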